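import Pool.Agent.Run7.h870.BS.Qd

/-!
# MP_da9885_nt: for every large `n`, primes `p < n` with `n (n - p) ^ 2 + 1` an almost prime

The problem asks whether for every `n > 5` there are a prime `p` and `q ≥ 1` with `n = p + q` and
`n q ^ 2 + 1` prime. Here: for every large `n` there are at least `c * n / log ^ 3 n` such pairs for
which `n q ^ 2 + 1` has all its prime factors at least `n ^ δ`, hence at most `R` prime factors.
-/

set_option autoImplicit false

open Finset

namespace Pool.Agent.Results.MP_da9885_nt.EveryIntegerAlmostPrimes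

/-- the pairs `(p, q)` with `p` prime, `q ≥ 1`, `p + q = n` such that `n q ^ 2 + 1` has at most `R`
prime factors, counted with multiplicity, all of them at least `z` -/
def good (n R : ℕ) (z : ℝ) : Set (ℕ × ℕ) :=
  {v | v.1.Prime ∧ 1 ≤ v.2 ∧ v.1 + v.2 = n ∧
    (∀ l : ℕ, l.Prime → l ∣ n * v.2 ^ 2 + 1 → z ≤ l) ∧
    ArithmeticFunction.cardFactors (n * v.2 ^ 2 + 1) ≤ R}

/-- There are `δ, c > 0`, `R` and `n₀` such that every `n ≥ n₀` is in at least
`c * n / (log n) ^ 3` ways `p + q` with `p` prime and `q ≥ 1` for which `n q ^ 2 + 1` has at most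
`R` prime factors, all at least `n ^ δ`. -/
theorem result : ∃ (δ c : ℝ) (R : ℕ), 0 < δ ∧ 0 < c ∧ ∃ n₀ : ℕ, ∀ n : ℕ, n₀ ≤ n →
    c * (n / Real.log n ^ 3) ≤ ((good n R ((n : ℝ) ^ δ)).ncard : ℝ) := by
  obtain ⟨δ, c, R, hδ, hc, n₀, hn₀, h⟩ := Run7.h870.BS.qmain
  refine ⟨δ, c, R, hδ, hc, n₀, fun n hn => ?_⟩
  obtain ⟨T, hT, hTp⟩ := h n hn
  refine hT.trans ?_
  have h5 : T.card = (T.image (fun p => (p, n - p))).card := by
    classical
    rw [card_image_of_injOn]
    intro x _ y _ hxy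
    simp only [Prod.mk.injEq] at hxy
    exact hxy.1
  rw [Nat.cast_le, h5, ← Set.ncard_coe_finset]
  apply Set.ncard_le_ncard
  · intro q hq
    rw [mem_coe, mem_image] at hq
    obtain ⟨p, hp, rfl⟩ := hq
    obtain ⟨h1, hpn, h6⟩ := hTp p hp
    exact ⟨h1, by show 1 ≤ n - p; omega, by show p + (n - p) = n; omega, h6⟩
  · apply Set.Finite.subset (Finset.finite_toSet (range (n + 1) ×ˢ range (n + 1)))
    rintro ⟨x, y⟩ hq
    have h6 := hq.2.2.1
    simp only at h6
    rw [mem_coe]
    simp only [mem_product, mem_range]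
    omega

end Pool.Agent.Results.MP_da9885_nt.EveryIntegerAlmostPrimes
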